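import Mathlib

/-!
# Coarse isomorphism of word metrics on the integers: the case in which one set is a singleton
-/

namespace Pool.Agent.Results.MP_584ea6_al.SingletonSets

/-- `Q^*`: the submonoid of the multiplicative monoid of the integers generated by `Q`, that is the
set of products of nonnegative powers of elements of `Q`. -/
def star (Q : Set ℕ) : Submonoid ℤ :=
  Submonoid.closure ((Nat.cast : ℕ → ℤ) '' Q)

/-- The word norm of the integer `x` for the symmetric generating set `Q^*` together with `-Q^*`: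
the least length of a list of elements of `Q^*` and `-Q^*` with sum `x`. -/
noncomputable def wordNorm (Q : Set ℕ) (x : ℤ) : ℕ :=
  sInf {k : ℕ | ∃ l : List ℤ, l.length = k ∧ (∀ s ∈ l, s ∈ star Q ∨ -s ∈ star Q) ∧ l.sum = x}

/-- The word metric `d_Q`. -/
noncomputable def wordDist (Q : Set ℕ) (m n : ℤ) : ℕ := wordNorm Q (m - n)

/-- A map is controlled if it maps pairs at bounded distance to pairs at bounded distance. -/
def Controlled (d d' : ℤ → ℤ → ℕ) (f : ℤ → ℤ) : Prop :=
  ∀ r : ℕ, ∃ R : ℕ, ∀ x y : ℤ, d x y ≤ r → d' (f x) (f y) ≤ R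

/-- Coarse homomorphisms. -/
def IsCoarseHom (d d' : ℤ → ℤ → ℕ) (f : ℤ → ℤ) : Prop :=
  Controlled d d' f ∧ ∃ C : ℕ, ∀ x y : ℤ, d' (f (x + y)) (f x + f y) ≤ C

/-- Coarse isomorphisms: coarse homomorphisms with a controlled coarse inverse. -/
def IsCoarseIso (d d' : ℤ → ℤ → ℕ) (f : ℤ → ℤ) : Prop :=
  IsCoarseHom d d' f ∧ ∃ g : ℤ → ℤ, Controlled d' d g ∧
    ∃ C : ℕ, (∀ x, d (g (f x)) x ≤ C) ∧ ∀ y, d' (f (g y)) y ≤ C

/-- The coarse groups given by two metrics on the integers are coarsely isomorphic. -/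
def CoarselyIsomorphic (d d' : ℤ → ℤ → ℕ) : Prop := ∃ f : ℤ → ℤ, IsCoarseIso d d' f

/-! ### The word norm -/

lemma one_mem_star (Q : Set ℕ) : (1 : ℤ) ∈ star Q := Submonoid.one_mem _

lemma exists_list (Q : Set ℕ) (x : ℤ) :
    ∃ l : List ℤ, l.length = wordNorm Q x ∧ (∀ s ∈ l, s ∈ star Q ∨ -s ∈ star Q) ∧ l.sum = x := by
  have hne : {k : ℕ | ∃ l : List ℤ, l.length = k ∧ (∀ s ∈ l, s ∈ star Q ∨ -s ∈ star Q) ∧
      l.sum = x}.Nonempty := by
    refine ⟨x.natAbs, List.replicate x.natAbs (SignType.sign x : ℤ), by simp, ?_, ?_⟩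
    · intro s hs
      obtain ⟨h0, rfl⟩ := List.mem_replicate.1 hs
      rcases lt_trichotomy x 0 with h | h | h
      · right
        rw [sign_neg h]
        simp [one_mem_star Q]
      · exact absurd (by simp [h]) h0
      · left
        rw [sign_pos h]
        simp [one_mem_star Q]
    · rw [List.sum_replicate, nsmul_eq_mul, mul_comm]
      rcases lt_trichotomy x 0 with h | h | h
      · rw [sign_neg h]
        simp
        rw [abs_of_neg h]
        ring
      · simp [h]
      · rw [sign_pos h]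
        simp
        exact h.le
  exact Nat.sInf_mem hne

lemma wordNorm_le_length (Q : Set ℕ) (l : List ℤ) (hl : ∀ s ∈ l, s ∈ star Q ∨ -s ∈ star Q) :
    wordNorm Q l.sum ≤ l.length :=
  Nat.sInf_le ⟨l, rfl, hl, rfl⟩

lemma wordNorm_zero (Q : Set ℕ) : wordNorm Q 0 = 0 := by
  have := wordNorm_le_length Q [] (by simp)
  simpa using this

lemma wordNorm_add (Q : Set ℕ) (x y : ℤ) : wordNorm Q (x + y) ≤ wordNorm Q x + wordNorm Q y := by
  obtain ⟨l, hl, h1, h2⟩ := exists_list Q x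
  obtain ⟨m, hm, h3, h4⟩ := exists_list Q y
  have := wordNorm_le_length Q (l ++ m) (by
    intro s hs
    rcases List.mem_append.1 hs with h | h
    · exact h1 s h
    · exact h3 s h)
  rw [List.sum_append, List.length_append, h2, h4, hl, hm] at this
  exact this

lemma wordNorm_star_mul (Q : Set ℕ) {c : ℤ} (hc : c ∈ star Q) (x : ℤ) :
    wordNorm Q (c * x) ≤ wordNorm Q x := by
  obtain ⟨l, hl, h1, h2⟩ := exists_list Q x
  have := wordNorm_le_length Q (l.map (c * ·)) (by
    intro s hs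
    obtain ⟨t, ht, rfl⟩ := List.mem_map.1 hs
    rcases h1 t ht with h | h
    · exact Or.inl (mul_mem hc h)
    · right
      rw [← mul_neg]
      exact mul_mem hc h)
  rw [List.sum_map_mul_left, List.length_map] at this
  simp only [List.map_id'] at this
  rw [h2, hl] at this
  exact this

lemma wordNorm_neg_le (Q : Set ℕ) (x : ℤ) : wordNorm Q (-x) ≤ wordNorm Q x := by
  obtain ⟨l, hl, h1, h2⟩ := exists_list Q x
  have := wordNorm_le_length Q (l.map (-1 * ·)) (by
    intro s hs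
    obtain ⟨t, ht, rfl⟩ := List.mem_map.1 hs
    rcases h1 t ht with h | h
    · right
      rwa [neg_mul, one_mul, neg_neg]
    · left
      rwa [neg_mul, one_mul])
  rw [List.sum_map_mul_left, List.length_map] at this
  simp only [List.map_id'] at this
  rw [h2, hl, neg_mul, one_mul] at this
  exact this

lemma wordNorm_neg (Q : Set ℕ) (x : ℤ) : wordNorm Q (-x) = wordNorm Q x :=
  le_antisymm (wordNorm_neg_le Q x) (by simpa using wordNorm_neg_le Q (-x))

lemma wordNorm_sub_comm (Q : Set ℕ) (x y : ℤ) : wordNorm Q (x - y) = wordNorm Q (y - x) := by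
  rw [← wordNorm_neg, neg_sub]

lemma wordNorm_nat_mul (Q : Set ℕ) (m : ℕ) (x : ℤ) : wordNorm Q (m * x) ≤ m * wordNorm Q x := by
  induction m with
  | zero => simp [wordNorm_zero]
  | succ m ih =>
    have h : ((m + 1 : ℕ) : ℤ) * x = m * x + x := by push_cast; ring
    rw [h]
    calc wordNorm Q (m * x + x) ≤ wordNorm Q (m * x) + wordNorm Q x := wordNorm_add _ _ _
      _ ≤ m * wordNorm Q x + wordNorm Q x := by omega
      _ = (m + 1) * wordNorm Q x := by ring

lemma wordNorm_le_add_sub (Q : Set ℕ) (x y : ℤ) :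
    wordNorm Q x ≤ wordNorm Q y + wordNorm Q (x - y) := by
  have := wordNorm_add Q y (x - y)
  rwa [add_sub_cancel] at this

lemma wordNorm_tri (Q : Set ℕ) (x y z : ℤ) :
    wordNorm Q (x - z) ≤ wordNorm Q (x - y) + wordNorm Q (y - z) := by
  have := wordNorm_add Q (x - y) (y - z)
  rwa [sub_add_sub_cancel] at this

/-- Controlled maps between the Cayley graphs are Lipschitz. -/
lemma lipschitz_of_controlled {Q Q' : Set ℕ} {f : ℤ → ℤ}
    (hf : Controlled (wordDist Q) (wordDist Q') f) :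
    ∃ R : ℕ, ∀ x y : ℤ, wordNorm Q' (f x - f y) ≤ R * wordNorm Q (x - y) := by
  obtain ⟨R, hR⟩ := hf 1
  refine ⟨R, ?_⟩
  have key : ∀ l : List ℤ, (∀ s ∈ l, s ∈ star Q ∨ -s ∈ star Q) → ∀ y : ℤ,
      wordNorm Q' (f (l.sum + y) - f y) ≤ R * l.length := by
    intro l
    induction l with
    | nil => intro _ y; simp [wordNorm_zero]
    | cons a l ih =>
      intro hl y
      have h1 := ih (fun s hs => hl s (List.mem_cons_of_mem _ hs)) y
      have h2 : wordNorm Q' (f (a + (l.sum + y)) - f (l.sum + y)) ≤ R := by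
        apply hR
        have := wordNorm_le_length Q [a] (by
          intro s hs
          rw [List.mem_singleton] at hs
          subst hs
          exact hl s List.mem_cons_self)
        simpa [wordDist] using this
      rw [List.sum_cons, List.length_cons, add_assoc]
      calc wordNorm Q' (f (a + (l.sum + y)) - f y)
          ≤ wordNorm Q' (f (a + (l.sum + y)) - f (l.sum + y))
            + wordNorm Q' (f (l.sum + y) - f y) := wordNorm_tri _ _ _ _
        _ ≤ R + R * l.length := by omega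
        _ = R * (l.length + 1) := by ring
  intro x y
  obtain ⟨l, hl, h1, h2⟩ := exists_list Q (x - y)
  have := key l h1 y
  rwa [h2, hl, sub_add_cancel] at this

/-- A coarse inverse of a coarse isomorphism is a coarse isomorphism. -/
lemma coarselyIsomorphic_symm {Q Q' : Set ℕ}
    (h : CoarselyIsomorphic (wordDist Q) (wordDist Q')) :
    CoarselyIsomorphic (wordDist Q') (wordDist Q) := by
  obtain ⟨f, ⟨hf, C, hC⟩, g, hg, D, hD1, hD2⟩ := h
  refine ⟨g, ⟨hg, ?_⟩, f, hf, D, hD2, hD1⟩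
  obtain ⟨R, hR⟩ := lipschitz_of_controlled hg
  refine ⟨R * (C + D + D + D) + D, fun x y => ?_⟩
  have h1 : wordNorm Q' ((x + y) - f (g x + g y)) ≤ C + D + D + D := by
    have e1 : wordNorm Q' (f (g x + g y) - (f (g x) + f (g y))) ≤ C := hC _ _
    have e2 : wordNorm Q' (f (g x) - x) ≤ D := hD2 _
    have e3 : wordNorm Q' (f (g y) - y) ≤ D := hD2 _
    have e4 : (x + y) - f (g x + g y)
        = -((f (g x + g y) - (f (g x) + f (g y))) + ((f (g x) - x) + (f (g y) - y))) := by ring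
    rw [e4, wordNorm_neg]
    refine (wordNorm_add _ _ _).trans ?_
    have := wordNorm_add Q' (f (g x) - x) (f (g y) - y)
    omega
  have h2 : wordNorm Q (g (x + y) - g (f (g x + g y))) ≤ R * (C + D + D + D) :=
    (hR _ _).trans (Nat.mul_le_mul_left _ h1)
  have h3 : wordNorm Q (g (f (g x + g y)) - (g x + g y)) ≤ D := hD1 _
  have h4 := wordNorm_tri Q (g (x + y)) (g (f (g x + g y))) (g x + g y)
  show wordNorm Q (g (x + y) - (g x + g y)) ≤ _
  omega

/-- The coarse part of the argument: if `c` lies in `Q^*`, then multiplication by `c` is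
large-scale Lipschitz for the metric of `Q'`, with a multiplicative constant that does not depend
on `c`. -/
lemma mul_lipschitz {Q Q' : Set ℕ} (h : CoarselyIsomorphic (wordDist Q) (wordDist Q')) :
    ∃ B : ℕ, ∀ c : ℕ, (c : ℤ) ∈ star Q → ∃ D : ℕ, ∀ y : ℤ,
      wordNorm Q' (c * y) ≤ B * wordNorm Q' y + D := by
  obtain ⟨f, ⟨hf, C, hC⟩, g, hg, A, hA1, hA2⟩ := h
  obtain ⟨R, hR⟩ := lipschitz_of_controlled hf
  obtain ⟨S, hS⟩ := lipschitz_of_controlled hg
  refine ⟨R * S, fun c hc => ?_⟩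
  -- the defect of homogeneity
  have hhom : ∀ (m : ℕ) (x : ℤ), wordNorm Q' (m * f x - f (m * x)) ≤ m * C + wordNorm Q' (f 0) := by
    intro m x
    induction m with
    | zero =>
      simp only [Nat.cast_zero, zero_mul, zero_sub, wordNorm_neg]
      omega
    | succ m ih =>
      have e1 : wordNorm Q' (f (m * x + x) - (f (m * x) + f x)) ≤ C := hC _ _
      have e2 : ((m + 1 : ℕ) : ℤ) * f x - f (((m + 1 : ℕ) : ℤ) * x)
          = (m * f x - f (m * x)) + -(f (m * x + x) - (f (m * x) + f x)) := by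
        have : (((m + 1 : ℕ) : ℤ) * x) = m * x + x := by push_cast; ring
        rw [this]
        push_cast
        ring
      rw [e2]
      refine (wordNorm_add _ _ _).trans ?_
      rw [wordNorm_neg]
      have : (m + 1) * C = m * C + C := by ring
      omega
  refine ⟨c * A + (c * C + wordNorm Q' (f 0)) + wordNorm Q' (f 0) + R * wordNorm Q (g 0), ?_⟩
  intro y
  have e0 : (c : ℤ) * y = (c * (y - f (g y))) + ((c * f (g y) - f (c * g y)) +
      ((f (c * g y) - f 0) + f 0)) := by ring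
  have e1 : wordNorm Q' (c * (y - f (g y))) ≤ c * A := by
    refine (wordNorm_nat_mul _ _ _).trans (Nat.mul_le_mul_left _ ?_)
    rw [wordNorm_sub_comm]
    exact hA2 y
  have e2 := hhom c (g y)
  have e3 : wordNorm Q' (f (c * g y) - f 0) ≤ R * wordNorm Q (g y) := by
    refine (hR _ _).trans (Nat.mul_le_mul_left _ ?_)
    rw [sub_zero]
    exact wordNorm_star_mul Q hc _
  have e4 : wordNorm Q (g y) ≤ wordNorm Q (g 0) + S * wordNorm Q' y := by
    refine (wordNorm_le_add_sub Q (g y) (g 0)).trans ?_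
    have := hS y 0
    rw [sub_zero] at this
    omega
  have e5 : R * wordNorm Q (g y) ≤ R * wordNorm Q (g 0) + R * S * wordNorm Q' y := by
    calc R * wordNorm Q (g y) ≤ R * (wordNorm Q (g 0) + S * wordNorm Q' y) :=
          Nat.mul_le_mul_left _ e4
      _ = _ := by ring
  rw [e0]
  have f1 := wordNorm_add Q' (c * (y - f (g y))) ((c * f (g y) - f (c * g y)) +
      ((f (c * g y) - f 0) + f 0))
  have f2 := wordNorm_add Q' (c * f (g y) - f (c * g y)) ((f (c * g y) - f 0) + f 0)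
  have f3 := wordNorm_add Q' (f (c * g y) - f 0) (f 0)
  omega

/-! ### A lower bound for the word norm of a single prime -/

/-- The sum over `j < T` of the distances of `x / q ^ j` to the nearest integers. -/
noncomputable def phi (q T : ℕ) (x : ℤ) : ℝ :=
  ∑ j ∈ Finset.range T, ‖(((x : ℝ) / (q : ℝ) ^ j : ℝ) : UnitAddCircle)‖

lemma phi_add (q T : ℕ) (x y : ℤ) : phi q T (x + y) ≤ phi q T x + phi q T y := by
  unfold phi
  rw [← Finset.sum_add_distrib]
  refine Finset.sum_le_sum fun j _ => ?_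
  have : (((x + y : ℤ) : ℝ) / (q : ℝ) ^ j) = (x : ℝ) / (q : ℝ) ^ j + (y : ℝ) / (q : ℝ) ^ j := by
    push_cast
    ring
  rw [this, AddCircle.coe_add]
  exact norm_add_le _ _

lemma phi_neg (q T : ℕ) (x : ℤ) : phi q T (-x) = phi q T x := by
  unfold phi
  refine Finset.sum_congr rfl fun j _ => ?_
  have : (((-x : ℤ) : ℝ) / (q : ℝ) ^ j) = -((x : ℝ) / (q : ℝ) ^ j) := by
    push_cast
    ring
  rw [this, AddCircle.coe_neg, norm_neg]

lemma phi_zero (q T : ℕ) : phi q T 0 = 0 := by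
  unfold phi
  simp

lemma norm_coe_int (n : ℤ) : ‖((n : ℝ) : UnitAddCircle)‖ = 0 := by
  rw [UnitAddCircle.norm_eq, round_intCast, sub_self, abs_zero]

lemma norm_coe_le (x : ℝ) : ‖(x : UnitAddCircle)‖ ≤ |x| := by
  rw [UnitAddCircle.norm_eq]
  have := round_le x 0
  simpa using this

lemma phi_pow (q : ℕ) (hq : 2 ≤ q) (a T : ℕ) : phi q T ((q : ℤ) ^ a) ≤ 1 := by
  have hq0 : (0 : ℝ) < q := by positivity
  have hq2 : (2 : ℝ) ≤ q := by exact_mod_cast hq
  have key : phi q T ((q : ℤ) ^ a) ≤ 1 - (1 / 2 : ℝ) ^ (T - 1 - a) := by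
    induction T with
    | zero => simp [phi]
    | succ T ih =>
      have h1 : phi q (T + 1) ((q : ℤ) ^ a) = phi q T ((q : ℤ) ^ a) +
          ‖(((((q : ℤ) ^ a : ℤ) : ℝ) / (q : ℝ) ^ T : ℝ) : UnitAddCircle)‖ := by
        unfold phi
        rw [Finset.sum_range_succ]
      rw [h1]
      rcases le_or_gt T a with h | h
      · have h2 : ((((q : ℤ) ^ a : ℤ) : ℝ) / (q : ℝ) ^ T) = (((q : ℤ) ^ (a - T) : ℤ) : ℝ) := by
          push_cast
          rw [div_eq_iff (by positivity), ← pow_add]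
          congr 1
          omega
        rw [h2, norm_coe_int, add_zero]
        have e1 : T - 1 - a = 0 := by omega
        have e2 : T + 1 - 1 - a = 0 := by omega
        rw [e2]
        rw [e1] at ih
        exact ih
      · have h2 : ‖(((((q : ℤ) ^ a : ℤ) : ℝ) / (q : ℝ) ^ T : ℝ) : UnitAddCircle)‖
            ≤ (1 / 2 : ℝ) ^ (T - a) := by
          refine (norm_coe_le _).trans ?_
          have e : ((((q : ℤ) ^ a : ℤ) : ℝ) / (q : ℝ) ^ T) = (1 / (q : ℝ)) ^ (T - a) := by
            push_cast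
            rw [one_div, inv_pow, eq_comm, inv_eq_one_div, div_eq_div_iff (by positivity)
              (by positivity), one_mul, ← pow_add]
            congr 1
            omega
          rw [e, abs_of_nonneg (by positivity)]
          exact pow_le_pow_left₀ (by positivity)
            (one_div_le_one_div_of_le (by norm_num) hq2) _
        have e1 : T + 1 - 1 - a = (T - 1 - a) + 1 := by omega
        have e2 : T - a = (T - 1 - a) + 1 := by omega
        rw [e2] at h2
        rw [e1]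
        rw [pow_succ] at h2 ⊢
        linarith
  have : (0 : ℝ) ≤ (1 / 2 : ℝ) ^ (T - 1 - a) := by positivity
  linarith

lemma phi_le_wordNorm (q : ℕ) (hq : 2 ≤ q) (T : ℕ) (x : ℤ) :
    phi q T x ≤ wordNorm {q} x := by
  obtain ⟨l, hl, h1, h2⟩ := exists_list {q} x
  rw [← hl, ← h2]
  clear hl h2
  have hs : ∀ s : ℤ, s ∈ star {q} → phi q T s ≤ 1 := by
    intro s hs
    unfold star at hs
    rw [Set.image_singleton, Submonoid.mem_closure_singleton] at hs
    obtain ⟨a, rfl⟩ := hs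
    exact phi_pow q hq a T
  induction l with
  | nil => simp [phi_zero]
  | cons a l ih =>
    rw [List.sum_cons, List.length_cons]
    refine (phi_add _ _ _ _).trans ?_
    have := ih (fun s hs => h1 s (List.mem_cons_of_mem _ hs))
    have h3 : phi q T a ≤ 1 := by
      rcases h1 a List.mem_cons_self with h | h
      · exact hs a h
      · rw [← phi_neg]
        exact hs _ h
    push_cast
    linarith

lemma norm_ge (N : ℕ) (hN : 0 < N) (z a r : ℤ) (δ : ℝ) (hδ : 0 < δ) (h : z = N * a + r)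
    (h1 : δ * N ≤ r) (h2 : (r : ℝ) ≤ (1 - δ) * N) :
    δ ≤ ‖(((z : ℝ) / (N : ℝ) : ℝ) : UnitAddCircle)‖ := by
  have hN' : (0 : ℝ) < N := by exact_mod_cast hN
  have e : (z : ℝ) / (N : ℝ) = (a : ℝ) + (r : ℝ) / N := by
    rw [h]
    push_cast
    field_simp
  have g1 : δ ≤ (r : ℝ) / N := by rwa [le_div_iff₀ hN']
  have g2 : (r : ℝ) / N ≤ 1 - δ := by rwa [div_le_iff₀ hN']
  have g3 : Int.fract ((a : ℝ) + (r : ℝ) / N) = (r : ℝ) / N := by
    rw [Int.fract_intCast_add, Int.fract_eq_self]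
    exact ⟨by linarith, by linarith⟩
  rw [UnitAddCircle.norm_eq, abs_sub_round_eq_min, e, g3]
  exact le_min g1 (by linarith)

/-- The number whose base `q` expansion has digits one at the place `0` and at the places `2 i`,
`s ≤ i < J`. -/
def tgt (q s J : ℕ) : ℕ := 1 + ∑ i ∈ Finset.Ico s J, q ^ (2 * i)

lemma tgt_succ (q s J : ℕ) (h : s ≤ J) : tgt q s (J + 1) = tgt q s J + q ^ (2 * J) := by
  unfold tgt
  rw [Finset.sum_Ico_succ_top h, add_assoc]

lemma tgt_self (q s : ℕ) : tgt q s s = 1 := by simp [tgt]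

lemma three_tgt_le (q s : ℕ) (hq : 2 ≤ q) (hs : 1 ≤ s) (J : ℕ) (h : s ≤ J) :
    3 * tgt q s J ≤ q ^ (2 * J) := by
  have hqq : 4 ≤ q ^ 2 := by nlinarith
  induction J, h using Nat.le_induction with
  | base =>
    rw [tgt_self, pow_mul]
    calc 3 * 1 ≤ 4 := by norm_num
      _ ≤ (q ^ 2) := hqq
      _ = (q ^ 2) ^ 1 := by ring
      _ ≤ (q ^ 2) ^ s := Nat.pow_le_pow_right (by omega) hs
  | succ J h ih =>
    rw [tgt_succ _ _ _ h]
    have : q ^ (2 * (J + 1)) = q ^ (2 * J) * q ^ 2 := by ring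
    rw [this]
    calc 3 * (tgt q s J + q ^ (2 * J)) ≤ q ^ (2 * J) * 4 := by omega
      _ ≤ q ^ (2 * J) * q ^ 2 := Nat.mul_le_mul_left _ hqq

lemma tgt_congr (q s : ℕ) (i : ℕ) (hi : s ≤ i) (J : ℕ) (h : i + 1 ≤ J) :
    (q : ℤ) ^ (2 * i + 1) ∣ (tgt q s J : ℤ) - tgt q s (i + 1) := by
  induction J, h using Nat.le_induction with
  | base => simp
  | succ J h ih =>
    rw [tgt_succ _ _ _ (by omega)]
    have e : ((tgt q s J + q ^ (2 * J) : ℕ) : ℤ) - tgt q s (i + 1)
        = ((tgt q s J : ℤ) - tgt q s (i + 1)) + (q : ℤ) ^ (2 * J) := by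
      push_cast
      ring
    rw [e]
    exact dvd_add ih (pow_dvd_pow _ (by omega))

/-- Lower bound of `phi` for the product of `c` with a sparse sum of powers of `q`. -/
lemma phi_ge (q s J c L n : ℕ) (hq : 2 ≤ q) (hs : 1 ≤ s)
    (hc : (q : ℤ) ^ (2 * J) ∣ (c : ℤ) - tgt q s J) (hL : 2 * J ≤ L) (hcL : 6 * c < q ^ L) :
    (n : ℝ) * ((J - s : ℕ) * (1 / (2 * q))) ≤
      phi q (L * n) (c * ∑ i ∈ Finset.range n, ((q : ℤ) ^ L) ^ i) := by
  have hq0 : (0 : ℝ) < q := by positivity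
  have hq2 : (2 : ℝ) ≤ q := by exact_mod_cast hq
  set z : ℤ := c * ∑ i ∈ Finset.range n, ((q : ℤ) ^ L) ^ i with hz
  set F : ℕ → ℝ := fun j => ‖(((z : ℝ) / (q : ℝ) ^ j : ℝ) : UnitAddCircle)‖ with hF
  have hF0 : ∀ j, 0 ≤ F j := fun j => norm_nonneg _
  -- single terms
  have hterm : ∀ m < n, ∀ i ∈ Finset.Ico s J, 1 / (2 * q) ≤ F (L * m + (2 * i + 1)) := by
    intro m hm i hi
    rw [Finset.mem_Ico] at hi
    obtain ⟨w, hw⟩ : (q : ℤ) ^ (2 * i + 1) ∣ (c : ℤ) - tgt q s (i + 1) := by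
      have e : (c : ℤ) - tgt q s (i + 1) = ((c : ℤ) - tgt q s J) +
        ((tgt q s J : ℤ) - tgt q s (i + 1)) := by ring
      rw [e]
      exact dvd_add ((pow_dvd_pow _ (by omega)).trans hc) (tgt_congr q s i hi.1 J (by omega))
    set S : ℕ := ∑ i ∈ Finset.range m, (q ^ L) ^ i with hS
    -- the upper part
    obtain ⟨v, hv⟩ : (q : ℤ) ^ (L * m + (2 * i + 1)) ∣
        ∑ i ∈ Finset.Ico (m + 1) n, ((q : ℤ) ^ L) ^ i := by
      refine Finset.dvd_sum fun k hk => ?_
      rw [Finset.mem_Ico] at hk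
      rw [← pow_mul]
      refine pow_dvd_pow _ ?_
      have : L * (m + 1) ≤ L * k := Nat.mul_le_mul_left _ hk.1
      have e : L * (m + 1) = L * m + L := by ring
      omega
    have hsum : ∑ i ∈ Finset.range n, ((q : ℤ) ^ L) ^ i
        = (S : ℤ) + ((q : ℤ) ^ L) ^ m + (q : ℤ) ^ (L * m + (2 * i + 1)) * v := by
      rw [← hv, ← Finset.sum_range_add_sum_Ico _ (show m + 1 ≤ n by omega),
        Finset.sum_range_succ, hS]
      push_cast
      ring
    have hdec : z = ((q ^ (L * m + (2 * i + 1)) : ℕ) : ℤ) * (c * v + w) +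
        ((tgt q s (i + 1) * (q ^ L) ^ m + c * S : ℕ) : ℤ) := by
      have hc' : (c : ℤ) = tgt q s (i + 1) + (q : ℤ) ^ (2 * i + 1) * w := by linarith
      have e1 : z = c * ((q : ℤ) ^ (L * m + (2 * i + 1)) * v) + c * ((q : ℤ) ^ L) ^ m + c * S := by
        rw [hz, hsum]
        ring
      have e2 : (c : ℤ) * ((q : ℤ) ^ L) ^ m = tgt q s (i + 1) * ((q : ℤ) ^ L) ^ m +
          (q : ℤ) ^ (L * m + (2 * i + 1)) * w := by
        rw [← pow_mul, pow_add]
        nth_rewrite 1 [hc']
        ring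
      rw [e1, e2]
      push_cast
      ring
    -- the lower part is small
    have hSb : 6 * c * S ≤ (q ^ L) ^ m := by
      have h1 : S * (q ^ L - 1) + 1 = (q ^ L) ^ m := by
        have h2 := geom_sum_mul ((q : ℤ) ^ L) m
        have h3 : 1 ≤ q ^ L := Nat.one_le_pow _ _ (by omega)
        zify [h3]
        rw [hS]
        push_cast
        linarith
      calc 6 * c * S = S * (6 * c) := by ring
        _ ≤ S * (q ^ L - 1) := Nat.mul_le_mul_left _ (by omega)
        _ ≤ (q ^ L) ^ m := by omega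
    have h3 := three_tgt_le q s hq hs i hi.1
    have htgt : tgt q s (i + 1) = tgt q s i + q ^ (2 * i) := tgt_succ _ _ _ hi.1
    have h4 : 4 ≤ q ^ (2 * i) := by
      have hqq : 4 ≤ q ^ 2 := by nlinarith
      rw [pow_mul]
      calc 4 ≤ (q ^ 2) ^ 1 := by simpa using hqq
        _ ≤ (q ^ 2) ^ i := Nat.pow_le_pow_right (by omega) (by omega)
    have hcast : ((q ^ (L * m + (2 * i + 1)) : ℕ) : ℝ) = (q : ℝ) ^ (L * m + (2 * i + 1)) := by
      push_cast
      ring
    have := norm_ge (q ^ (L * m + (2 * i + 1))) (by positivity) z (c * v + w)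
      ((tgt q s (i + 1) * (q ^ L) ^ m + c * S : ℕ) : ℤ) (1 / (2 * q)) (by positivity) hdec
    rw [hcast] at this
    have e1 : (q : ℝ) ^ (L * m + (2 * i + 1)) = q * ((q : ℝ) ^ (2 * i) * ((q : ℝ) ^ L) ^ m) := by
      rw [← pow_mul]
      ring
    have b1 : (0 : ℝ) < ((q : ℝ) ^ L) ^ m := by positivity
    have b2 : (4 : ℝ) ≤ (q : ℝ) ^ (2 * i) := by exact_mod_cast h4
    have b3 : (3 : ℝ) * tgt q s i ≤ (q : ℝ) ^ (2 * i) := by exact_mod_cast h3
    have b4 : (6 : ℝ) * c * S ≤ ((q : ℝ) ^ L) ^ m := by exact_mod_cast hSb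
    have b5 : (1 : ℝ) ≤ tgt q s i := by
      have : 1 ≤ tgt q s i := by unfold tgt; omega
      exact_mod_cast this
    have b6 : (0 : ℝ) ≤ (c : ℝ) * S := by positivity
    apply this
    · rw [e1, htgt]
      push_cast
      have : 1 / (2 * (q : ℝ)) * (q * ((q : ℝ) ^ (2 * i) * ((q : ℝ) ^ L) ^ m))
          = (q : ℝ) ^ (2 * i) * ((q : ℝ) ^ L) ^ m / 2 := by
        field_simp
      rw [this]
      have t1 : 0 ≤ (tgt q s i : ℝ) * ((q : ℝ) ^ L) ^ m := by positivity
      have t2 : 0 ≤ (q : ℝ) ^ (2 * i) * ((q : ℝ) ^ L) ^ m := by positivity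
      nlinarith
    · rw [e1, htgt]
      push_cast
      have : (1 - 1 / (2 * (q : ℝ))) * (q * ((q : ℝ) ^ (2 * i) * ((q : ℝ) ^ L) ^ m))
          = (q - 1 / 2) * ((q : ℝ) ^ (2 * i) * ((q : ℝ) ^ L) ^ m) := by
        field_simp
      rw [this]
      have t1 : 3 * (tgt q s i : ℝ) * ((q : ℝ) ^ L) ^ m ≤ (q : ℝ) ^ (2 * i) * ((q : ℝ) ^ L) ^ m :=
        mul_le_mul_of_nonneg_right b3 b1.le
      have t2 : (4 : ℝ) * ((q : ℝ) ^ L) ^ m ≤ (q : ℝ) ^ (2 * i) * ((q : ℝ) ^ L) ^ m :=
        mul_le_mul_of_nonneg_right b2 b1.le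
      have t3 : (3 / 2 : ℝ) * ((q : ℝ) ^ (2 * i) * ((q : ℝ) ^ L) ^ m) ≤
          (q - 1 / 2) * ((q : ℝ) ^ (2 * i) * ((q : ℝ) ^ L) ^ m) :=
        mul_le_mul_of_nonneg_right (by linarith) (by positivity)
      linarith
  -- one block
  have hblock : ∀ m < n, ((J - s : ℕ) : ℝ) * (1 / (2 * q)) ≤
      ∑ t ∈ Finset.range L, F (L * m + t) := by
    intro m hm
    have h1 : ∑ t ∈ (Finset.Ico s J).image (fun i => 2 * i + 1), F (L * m + t) ≤
        ∑ t ∈ Finset.range L, F (L * m + t) := by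
      refine Finset.sum_le_sum_of_subset_of_nonneg ?_ fun _ _ _ => hF0 _
      intro t ht
      obtain ⟨i, hi, rfl⟩ := Finset.mem_image.1 ht
      rw [Finset.mem_Ico] at hi
      rw [Finset.mem_range]
      omega
    rw [Finset.sum_image (fun a _ b _ h => by
      have h' : 2 * a + 1 = 2 * b + 1 := h
      omega)] at h1
    refine le_trans ?_ h1
    have h2 := Finset.card_nsmul_le_sum (Finset.Ico s J) (fun i => F (L * m + (2 * i + 1)))
      (1 / (2 * q)) (fun i hi => hterm m hm i hi)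
    rw [Nat.card_Ico, nsmul_eq_mul] at h2
    exact h2
  -- all blocks
  have hall : ∀ k ≤ n, (k : ℝ) * ((J - s : ℕ) * (1 / (2 * q))) ≤
      ∑ j ∈ Finset.range (L * k), F j := by
    intro k hk
    induction k with
    | zero => simp
    | succ k ih =>
      have e : L * (k + 1) = L * k + L := by ring
      rw [e, Finset.sum_range_add]
      have h1 := ih (by omega)
      have h2 := hblock k (by omega)
      push_cast
      linarith
  exact hall n le_rfl

/-- Powers of `p` modulo powers of the prime `q`. -/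
lemma exists_pow_congr (p q : ℕ) (hp : p.Prime) (hq : q.Prime) (hpq : p ≠ q) :
    ∃ s : ℕ, 1 ≤ s ∧ ∀ n t : ℕ, ∃ K : ℕ, (q : ℤ) ^ (n + s) ∣ (p : ℤ) ^ K - (1 + q ^ s * t) := by
  have hcop : Nat.Coprime p q := (Nat.coprime_primes hp hq).2 hpq
  have hdvd1 : (q : ℤ) ∣ (p : ℤ) ^ (2 * (q - 1)) - 1 := by
    have : Fact q.Prime := ⟨hq⟩
    have h1 : ((p : ℤ) : ZMod q) ≠ 0 := by
      rw [Int.cast_natCast, Ne, ZMod.natCast_eq_zero_iff]
      intro h
      exact hpq ((Nat.prime_dvd_prime_iff_eq hq hp).1 h).symm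
    have h2 := ZMod.pow_card_sub_one_eq_one h1
    rw [← ZMod.intCast_zmod_eq_zero_iff_dvd]
    push_cast at h2 ⊢
    rw [mul_comm 2, pow_mul, h2]
    ring
  have hdvd2 : q = 2 → (4 : ℤ) ∣ (p : ℤ) ^ (2 * (q - 1)) - 1 := by
    rintro rfl
    have hodd : p % 2 = 1 := by
      rcases hp.eq_two_or_odd with h | h
      · exact absurd h hpq
      · exact h
    obtain ⟨k, hk⟩ : ∃ k, p = 2 * k + 1 := ⟨p / 2, by omega⟩
    subst hk
    refine ⟨k ^ 2 + k, ?_⟩
    push_cast
    ring
  have hne : p ^ (2 * (q - 1)) - 1 ≠ 0 := by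
    have h1 : 1 < p ^ (2 * (q - 1)) := by
      apply Nat.one_lt_pow
      · have := hq.two_le
        omega
      · exact hp.one_lt
    omega
  obtain ⟨s, a, ha, hsa⟩ := Nat.exists_eq_pow_mul_and_not_dvd hne q hq.ne_one
  have hge : 1 ≤ p ^ (2 * (q - 1)) := Nat.one_le_pow _ _ hp.pos
  have hsa' : (p : ℤ) ^ (2 * (q - 1)) = 1 + q ^ s * a := by
    have : p ^ (2 * (q - 1)) = 1 + q ^ s * a := by omega
    exact_mod_cast this
  have hs1 : 1 ≤ s := by
    rcases Nat.eq_zero_or_pos s with h | h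
    · exfalso
      rw [hsa', h] at hdvd1
      apply ha
      have : (q : ℤ) ∣ (a : ℤ) := by simpa using hdvd1
      exact_mod_cast this
    · exact h
  have hs2 : s + 2 ≤ q * s := by
    rcases eq_or_ne q 2 with h | h
    · have h4 := hdvd2 h
      have : s ≠ 1 := by
        rintro rfl
        rw [hsa', h] at h4
        apply ha
        rw [h]
        have h5 : (4 : ℤ) ∣ 2 * a := by simpa using h4
        omega
      rw [h]
      omega
    · have : 3 ≤ q := by
        have := hq.two_le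
        omega
      nlinarith
  refine ⟨s, hs1, fun n t => ?_⟩
  have ha' : ¬ (q : ℤ) ∣ (a : ℤ) := fun h => ha (by exact_mod_cast h)
  have hord := ZMod.orderOf_one_add_mul_prime_pow hq s (by omega) hs2 a ha' n
  set g : ZMod (q ^ (n + s)) := 1 + (q : ZMod (q ^ (n + s))) ^ s * (a : ℤ) with hg
  have hgp : g = ((p ^ (2 * (q - 1)) : ℕ) : ZMod (q ^ (n + s))) := by
    rw [hg]
    have : ((p ^ (2 * (q - 1)) : ℕ) : ZMod (q ^ (n + s)))
      = (((p : ℤ) ^ (2 * (q - 1)) : ℤ) : ZMod (q ^ (n + s))) := by push_cast; ring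
    rw [this, hsa']
    push_cast
    ring
  have hred : ∀ w : ℕ, (1 : ZMod (q ^ (n + s))) + (q : ZMod (q ^ (n + s))) ^ s * w
      ∈ (Finset.range (q ^ n)).image
        (fun t : ℕ => (1 : ZMod (q ^ (n + s))) + (q : ZMod (q ^ (n + s))) ^ s * t) := by
    intro w
    refine Finset.mem_image.2 ⟨w % q ^ n, Finset.mem_range.2 (Nat.mod_lt _ (by
      have := hq.pos
      positivity)), ?_⟩
    have h1 : (q ^ s * (w % q ^ n)) ≡ q ^ s * w [MOD q ^ (n + s)] := by
      rw [add_comm, pow_add]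
      exact Nat.ModEq.mul_left' _ (Nat.mod_modEq _ _)
    have h2 := (ZMod.natCast_eq_natCast_iff _ _ _).2 h1
    push_cast at h2
    rw [h2]
  have hsub : (Finset.range (q ^ n)).image (fun k => g ^ k) ⊆
      (Finset.range (q ^ n)).image
        (fun t : ℕ => (1 : ZMod (q ^ (n + s))) + (q : ZMod (q ^ (n + s))) ^ s * t) := by
    intro y hy
    obtain ⟨k, -, rfl⟩ := Finset.mem_image.1 hy
    obtain ⟨w, hw⟩ : ∃ w : ℕ, (p ^ (2 * (q - 1))) ^ k = 1 + q ^ s * w := by
      have h1 : (p ^ (2 * (q - 1))) = 1 + q ^ s * a := by omega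
      clear * - h1
      induction k with
      | zero => exact ⟨0, by simp⟩
      | succ k ih =>
        obtain ⟨w, hw⟩ := ih
        refine ⟨w + a + q ^ s * w * a, ?_⟩
        rw [pow_succ, hw, h1]
        ring
    have : g ^ k = 1 + (q : ZMod (q ^ (n + s))) ^ s * w := by
      rw [hgp, ← Nat.cast_pow, hw]
      push_cast
      ring
    simp only [this]
    exact hred w
  have hcard : ((Finset.range (q ^ n)).image
        (fun t : ℕ => (1 : ZMod (q ^ (n + s))) + (q : ZMod (q ^ (n + s))) ^ s * t)).card ≤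
      ((Finset.range (q ^ n)).image (fun k => g ^ k)).card := by
    refine Finset.card_image_le.trans ?_
    rw [Finset.card_image_of_injOn]
    intro x hx y hy hxy
    rw [Finset.coe_range, ← hord] at hx hy
    exact pow_injOn_Iio_orderOf hx hy hxy
  have heq := Finset.eq_of_subset_of_card_le hsub hcard
  have hmem := hred t
  rw [← heq] at hmem
  obtain ⟨k, -, hk⟩ := Finset.mem_image.1 hmem
  refine ⟨2 * (q - 1) * k, ?_⟩
  have hfin : (((p : ℤ) ^ (2 * (q - 1) * k) - (1 + q ^ s * t) : ℤ) : ZMod (q ^ (n + s))) = 0 := by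
    push_cast
    rw [sub_eq_zero, ← hk, hgp, pow_mul]
    push_cast
    ring
  rw [ZMod.intCast_zmod_eq_zero_iff_dvd] at hfin
  exact_mod_cast hfin

lemma wordNorm_pow_le (q a : ℕ) : wordNorm {q} ((q : ℤ) ^ a) ≤ 1 := by
  have h : (q : ℤ) ^ a ∈ star {q} := by
    unfold star
    exact pow_mem (Submonoid.subset_closure (Set.mem_image_of_mem _ (Set.mem_singleton q))) a
  have := wordNorm_le_length {q} [(q : ℤ) ^ a] (by
    intro s hs
    rw [List.mem_singleton] at hs
    subst hs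
    exact Or.inl h)
  simpa using this

lemma wordNorm_sparse_le (q L n : ℕ) :
    wordNorm {q} (∑ i ∈ Finset.range n, ((q : ℤ) ^ L) ^ i) ≤ n := by
  induction n with
  | zero => simp [wordNorm_zero]
  | succ n ih =>
    rw [Finset.sum_range_succ]
    refine (wordNorm_add _ _ _).trans ?_
    have := wordNorm_pow_le q (L * n)
    rw [pow_mul] at this
    omega

/-- The main case. -/
theorem not_coarselyIsomorphic {p q : ℕ} (hp : p.Prime) (hq : q.Prime) (hpq : p ≠ q) {Q : Set ℕ}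
    (hpQ : p ∈ Q) : ¬ CoarselyIsomorphic (wordDist Q) (wordDist {q}) := by
  intro h
  obtain ⟨B, hB⟩ := mul_lipschitz h
  obtain ⟨s, hs, hK⟩ := exists_pow_congr p q hp hq hpq
  have hq2 := hq.two_le
  set J : ℕ := s + 2 * q * (B + 1) with hJ
  -- the target is congruent to one
  have htgt : ∀ k ≥ s, ∃ t : ℕ, tgt q s k = 1 + q ^ s * t := by
    intro k hk
    induction k, hk using Nat.le_induction with
    | base => exact ⟨0, by rw [tgt_self]; ring⟩
    | succ k hk ih =>
      obtain ⟨t, ht⟩ := ih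
      refine ⟨t + q ^ (2 * k - s), ?_⟩
      rw [tgt_succ _ _ _ hk, ht, mul_add, ← pow_add, add_assoc]
      congr 3
      omega
  obtain ⟨t, ht⟩ := htgt J (by omega)
  obtain ⟨K, hK⟩ := hK (2 * J) t
  have hcast : (1 + (q : ℤ) ^ s * t) = tgt q s J := by
    rw [ht]
    push_cast
    ring
  rw [hcast] at hK
  have hc : (q : ℤ) ^ (2 * J) ∣ ((p ^ K : ℕ) : ℤ) - tgt q s J := by
    push_cast
    exact (pow_dvd_pow _ (by omega)).trans hK
  have hstar : ((p ^ K : ℕ) : ℤ) ∈ star Q := by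
    push_cast
    unfold star
    exact pow_mem (Submonoid.subset_closure (Set.mem_image_of_mem _ hpQ)) K
  obtain ⟨D, hD⟩ := hB (p ^ K) hstar
  set L : ℕ := 2 * J + 6 * p ^ K with hL
  have hcL : 6 * p ^ K < q ^ L := by
    calc 6 * p ^ K < 2 ^ (6 * p ^ K) := Nat.lt_two_pow_self
      _ ≤ q ^ (6 * p ^ K) := Nat.pow_le_pow_left hq2 _
      _ ≤ q ^ L := Nat.pow_le_pow_right (by omega) (by omega)
  have h1 := phi_ge q s J (p ^ K) L (D + 1) hq2 hs hc (by omega) hcL
  have h2 := phi_le_wordNorm q hq2 (L * (D + 1))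
    (((p ^ K : ℕ) : ℤ) * ∑ i ∈ Finset.range (D + 1), ((q : ℤ) ^ L) ^ i)
  have h3 := hD (∑ i ∈ Finset.range (D + 1), ((q : ℤ) ^ L) ^ i)
  have h4 := wordNorm_sparse_le q L (D + 1)
  have h5 : wordNorm {q} (((p ^ K : ℕ) : ℤ) * ∑ i ∈ Finset.range (D + 1), ((q : ℤ) ^ L) ^ i)
      ≤ B * (D + 1) + D := by
    have := Nat.mul_le_mul_left B h4
    omega
  have h6 : ((wordNorm {q} (((p ^ K : ℕ) : ℤ) *
      ∑ i ∈ Finset.range (D + 1), ((q : ℤ) ^ L) ^ i) : ℕ) : ℝ) ≤ B * (D + 1) + D := by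
    exact_mod_cast h5
  have h7 : ((J - s : ℕ) : ℝ) * (1 / (2 * q)) = B + 1 := by
    have : J - s = 2 * q * (B + 1) := by omega
    rw [this]
    have hq0 : (q : ℝ) ≠ 0 := by
      have : q ≠ 0 := by omega
      exact_mod_cast this
    push_cast
    field_simp
  rw [h7] at h1
  push_cast at h1 h2 h6
  have h8 : ((D : ℝ) + 1) * (B + 1) ≤ B * (D + 1) + D := by linarith
  nlinarith

lemma coarselyIsomorphic_refl (d : ℤ → ℤ → ℕ) (hd : ∀ x, d x x = 0) : CoarselyIsomorphic d d :=
  ⟨id, ⟨fun r => ⟨r, fun _ _ h => h⟩, 0, fun _ _ => (hd _).le⟩, id, fun r => ⟨r, fun _ _ h => h⟩,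
    0, fun x => (hd x).le, fun x => (hd x).le⟩

/-- For a prime `q` and any nonempty set `Q` of primes, the coarse groups given by the word
metrics of `Q^*` and of the powers of `q` on the integers are coarsely isomorphic, in either
direction, only if `Q = {q}`. -/
theorem result (q : ℕ) (hq : q.Prime) (Q : Set ℕ) (hQ : ∀ p ∈ Q, p.Prime) (hne : Q.Nonempty) :
    (CoarselyIsomorphic (wordDist Q) (wordDist {q}) ↔ Q = {q}) ∧
      (CoarselyIsomorphic (wordDist {q}) (wordDist Q) ↔ Q = {q}) := by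
  have key : CoarselyIsomorphic (wordDist Q) (wordDist {q}) → Q = {q} := by
    intro h
    by_contra hcon
    obtain ⟨p, hp, hpq⟩ : ∃ p ∈ Q, p ≠ q := by
      by_contra hno
      push Not at hno
      exact hcon (Set.eq_singleton_iff_nonempty_unique_mem.2 ⟨hne, hno⟩)
    exact not_coarselyIsomorphic (hQ p hp) hq hpq hp h
  have hrefl : CoarselyIsomorphic (wordDist {q}) (wordDist {q}) :=
    coarselyIsomorphic_refl _ fun x => by simp [wordDist, wordNorm_zero]
  refine ⟨⟨key, ?_⟩, ⟨fun h => key (coarselyIsomorphic_symm h), ?_⟩⟩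
  · rintro rfl
    exact hrefl
  · rintro rfl
    exact hrefl

end Pool.Agent.Results.MP_584ea6_al.SingletonSets
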